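import Mathlib

/-!
# Project SP (MP_34a06d_pr): monotonicity of the speed in invariant random rate fields.  Definitions.

General part: edges of the Cayley graph of a Coxeter system, rate fields, the transition function of the
continuous-time walk, invariance, speed.
-/

set_option autoImplicit false

open scoped ENNReal NNReal
open MeasureTheory Filter

namespace Pool.Agent.Q71.SP

section walk

variable {B W : Type} [Group W] {M : CoxeterMatrix B} (cs : CoxeterSystem M W)

/-- the edges `{x, x s}` of the Cayley graph -/
def Edge : Type := {e : Sym2 W // ∃ (x : W) (i : B), e = s(x, x * cs.simple i)}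

/-- the edge `{x, x s_i}` -/
def edge (x : W) (i : B) : Edge cs := ⟨s(x, x * cs.simple i), x, i, rfl⟩

/-- left multiplication by `g` on the edges: `{x, x s}` goes to `{g x, g x s}` -/
def lmul (g : W) (e : Edge cs) : Edge cs :=
  ⟨e.1.map (fun x => g * x), by
    obtain ⟨x, i, h⟩ := e.2
    exact ⟨g * x, i, by rw [h, Sym2.map_mk, mul_assoc]⟩⟩

/-- the total rate of the edges at `x` -/
noncomputable def tot [Fintype B] (r : Edge cs → ℝ≥0) (x : W) : ℝ≥0 := ∑ i, r (edge cs x i)

open Classical in
/-- `pn r n t x y` is the probability that the continuous-time walk with rates `r` started at `x` is at `y` at time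
`t` and has made at most `n` jumps until then.  Recursion over the time `u` of the first jump and the edge crossed:
the walk stays at `x` for an exponential time of rate `tot r x`, and the rate of the first jump across the edge
`{x, x s_i}` at time `u` is `r {x, x s_i} * exp (- tot r x * u)`. -/
noncomputable def pn [Fintype B] (r : Edge cs → ℝ≥0) : ℕ → ℝ → W → W → ℝ≥0∞
  | 0, t, x, y => if x = y then ENNReal.ofReal (Real.exp (-(tot cs r x * t))) else 0
  | n + 1, t, x, y => (if x = y then ENNReal.ofReal (Real.exp (-(tot cs r x * t))) else 0) +
      ∑ i, ∫⁻ u in Set.Ioc 0 t, ENNReal.ofReal (r (edge cs x i) * Real.exp (-(tot cs r x * u))) *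
        pn r n (t - u) (x * cs.simple i) y

/-- the transition function of the walk with rates `r`: the probability that the walk started at `x` is at `y` at time
`t` after finitely many jumps -/
noncomputable def pt [Fintype B] (r : Edge cs → ℝ≥0) (t : ℝ) (x y : W) : ℝ≥0∞ := ⨆ n, pn cs r n t x y

/-- the walk with rates `r` started at the identity makes almost surely finitely many jumps in bounded time intervals -/
def NonExpl [Fintype B] (r : Edge cs → ℝ≥0) : Prop := ∀ t : ℝ, 0 ≤ t → ∑' y, pt cs r t 1 y = 1

/-- the annealed expected distance `E |Z_t|` from the identity at time `t` of the walk in the random rate field `R` -/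
noncomputable def expDist [Fintype B] {Ω : Type} [MeasurableSpace Ω] (P : Measure Ω) (R : Ω → Edge cs → ℝ≥0)
    (t : ℝ) : ℝ≥0∞ := ∫⁻ ω, ∑' y, pt cs (R ω) t 1 y * (cs.length y : ℝ≥0∞) ∂P

/-- the walk in the random rate field `R` is almost surely non-explosive and has the expected speed `σ`, i.e.
`E |Z_t| / t` tends to `σ` in `[0, ∞]` -/
structure IsSpeed [Fintype B] {Ω : Type} [MeasurableSpace Ω] (P : Measure Ω) (R : Ω → Edge cs → ℝ≥0)
    (σ : ℝ≥0∞) : Prop where
  nonexpl : ∀ᵐ ω ∂P, NonExpl cs (R ω)
  lim : Tendsto (fun t : ℝ => expDist cs P R t / ENNReal.ofReal t) atTop (nhds σ)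

/-- `R` is a random rate field whose law is invariant under left multiplication -/
structure InvField {Ω : Type} [MeasurableSpace Ω] (P : Measure Ω) (R : Ω → Edge cs → ℝ≥0) : Prop where
  meas : Measurable R
  inv : ∀ g : W, P.map (fun ω (e : Edge cs) => R ω (lmul cs g e)) = P.map R

/-! ## Tools: the environment seen from `x`, the discrete-time chain -/

/-- the environment seen from `g` -/
def look (r : Edge cs → ℝ≥0) (g : W) : Edge cs → ℝ≥0 := fun e => r (lmul cs g e)

/-- one step of the discrete-time chain which moves from `x` across the edge `{x, x s_i}` with probability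
`r {x, x s_i} / c`, applied to a function -/
noncomputable def K [Fintype B] (r : Edge cs → ℝ≥0) (c : ℝ) (f : W → ℝ) (x : W) : ℝ :=
  f x + (∑ i, (r (edge cs x i) : ℝ) * (f (x * cs.simple i) - f x)) / c

/-- the word length as a real function -/
noncomputable def len (x : W) : ℝ := (cs.length x : ℝ)

/-- the expected distance after `n` steps of the discrete-time chain -/
noncomputable def yk [Fintype B] {Ω : Type} [MeasurableSpace Ω] (P : Measure Ω) (R : Ω → Edge cs → ℝ≥0)
    (c : ℝ) (n : ℕ) : ℝ := ∫ ω, ((K cs (R ω) c)^[n] (len cs)) 1 ∂P

end walk

/-! ## The example -/

/-- nonempty subsets of `{1, 2}`: the blocks -/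
inductive V3
  | one | two | both
  deriving DecidableEq

namespace V3

/-- the block `{i}` (`false` stands for `1`, `true` for `2`) -/
def sing : Bool → V3
  | false => one
  | true => two

/-- symmetric difference with `{i}`, `none` if the result is empty -/
def tog : V3 → Bool → Option V3
  | one, false => none
  | one, true => some both
  | two, true => none
  | two, false => some both
  | both, false => some two
  | both, true => some one

/-- the weights of the blocks in the Lyapunov function -/
noncomputable def wt : V3 → ℝ
  | one => 5 / 2
  | two => 5 / 2
  | both => 2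

end V3

/-- normal forms of the elements of the free product `(Z/2)^2 * (Z/2)^2`: `none` is the identity,
`some (g, v, l)` has the last block `v` of type `g` and the previous blocks `l` (last one first), of alternating
types -/
abbrev NF : Type := Option (Bool × V3 × List V3)

/-- right multiplication by the generator `i` of type `g` on the normal forms -/
def act1 (g i : Bool) : NF → NF
  | none => some (g, V3.sing i, [])
  | some (g', v, l) =>
    if g' = g then
      match V3.tog v i with
      | some v' => some (g, v', l)
      | none => match l with
        | [] => none
        | u :: l' => some (!g, u, l')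
    else some (g, V3.sing i, v :: l)

/-- the sum of the weights of the blocks -/
noncomputable def wsum : NF → ℝ
  | none => 0
  | some (_, v, l) => v.wt + (l.map V3.wt).sum

/-- the Lyapunov function at a site of type `g` -/
noncomputable def phi (g : Bool) : NF → ℝ
  | none => 0
  | some (g', v, l) => (if g' = g then 1 else v.wt) + (l.map V3.wt).sum

/-- the number of the blocks of type `g` in an alternating list of blocks whose first block has type `g'` -/
def cntL (g : Bool) : Bool → List V3 → ℕ
  | _, [] => 0
  | g', _ :: l => (if g' = g then 1 else 0) + cntL g (!g') l

/-- the number of the blocks of type `g` -/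
def cnt (g : Bool) : NF → ℕ
  | none => 0
  | some (g', v, l) => cntL g g' (v :: l)

/-- the number of blocks -/
def nbl : NF → ℕ
  | none => 0
  | some (_, _, l) => l.length + 1

variable (n : ℕ)

/-- the index set of the generators: `inl (g, i)` with `g` the type (two types) and `i` the number (two generators of
each type), and `inr j` with `j < n + 1` -/
abbrev Gen : Type := (Bool × Bool) ⊕ Fin (n + 1)

/-- the Coxeter matrix: the two generators of the same type commute, generators of different types generate an
infinite dihedral group, the same for two different generators `inr i`, `inr j`, and every `inl` commutes with every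
`inr`. (`0` stands for infinity.) -/
def mat : CoxeterMatrix (Gen n) where
  M := fun a b => match a, b with
    | Sum.inl (g, i), Sum.inl (g', i') => if g = g' then (if i = i' then 1 else 2) else 0
    | Sum.inl _, Sum.inr _ => 2
    | Sum.inr _, Sum.inl _ => 2
    | Sum.inr i, Sum.inr j => if i = j then 1 else 0
  isSymm := by
    ext a b
    rcases a with ⟨g, i⟩ | i <;> rcases b with ⟨g', i'⟩ | j <;> simp [Matrix.transpose, eq_comm]
  diagonal := by rintro (⟨g, i⟩ | i) <;> simp
  off_diagonal := by
    rintro (⟨g, i⟩ | i) (⟨g', i'⟩ | j) h
    · simp only
      split_ifs with h1 h2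
      · subst h1; subst h2; exact absurd rfl h
      · decide
      · decide
    · simp
    · simp
    · simp only
      split_ifs with h1
      · subst h1; exact absurd rfl h
      · decide

/-- the Coxeter group `W` -/
abbrev WW : Type := (mat n).Group

/-- its Coxeter system -/
abbrev csW : CoxeterSystem (mat n) (WW n) := (mat n).toCoxeterSystem

/-- the vertices of the tree: lists without equal neighbours; the head is the last letter of the word -/
abbrev Red : Type := {v : List (Fin (n + 1)) // v.IsChain (· ≠ ·)}

end Pool.Agent.Q71.SP
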