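import Pool.Agent.Q71.SP.Defs

/-!
# Project SP: the two normal forms on the Coxeter group `W`
-/

set_option autoImplicit false

open scoped ENNReal NNReal
open MeasureTheory Filter

namespace Pool.Agent.Q71.SP

theorem act1_act1 (g i : Bool) (x : NF) : act1 g i (act1 g i x) = x := by
  rcases x with _ | ⟨g', v, l⟩
  · cases i <;> simp [act1, V3.sing, V3.tog]
  · rcases l with _ | ⟨u, l'⟩ <;> cases g <;> cases g' <;> cases i <;> cases v <;>
      simp [act1, V3.sing, V3.tog]

theorem act1_comm (g : Bool) (x : NF) : act1 g false (act1 g true x) = act1 g true (act1 g false x) := by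
  rcases x with _ | ⟨g', v, l⟩
  · simp [act1, V3.sing, V3.tog]
  · rcases l with _ | ⟨u, l'⟩ <;> cases g <;> cases g' <;> cases v <;>
      simp [act1, V3.sing, V3.tog]

/-- right multiplication by the generator `i` of type `g`, as a permutation of the normal forms -/
def perm1 (g i : Bool) : Equiv.Perm NF := ⟨act1 g i, act1 g i, act1_act1 g i, act1_act1 g i⟩

variable {n : ℕ}

/-- right multiplication by `inr i` on the vertices of the tree: remove the head if it is `i`, otherwise put `i` in
front -/
def act2 (i : Fin (n + 1)) : Red n → Red n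
  | ⟨[], _⟩ => ⟨[i], by simp⟩
  | ⟨j :: v, h⟩ => if hij : j = i then ⟨v, by rw [List.isChain_cons] at h; exact h.2⟩
      else ⟨i :: j :: v, by
        rw [List.isChain_cons_cons]
        exact ⟨fun h' => hij h'.symm, h⟩⟩

theorem act2_act2 (i : Fin (n + 1)) (x : Red n) : act2 i (act2 i x) = x := by
  rcases x with ⟨_ | ⟨j, v⟩, h⟩
  · simp [act2]
  · by_cases hij : j = i
    · subst hij
      rcases v with _ | ⟨k, v⟩
      · simp [act2]
      · have hk : k ≠ j := by
          rw [List.isChain_cons_cons] at h
          exact fun h' => h.1 h'.symm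
        simp [act2, hk]
    · simp [act2, hij]

/-- the same as a permutation -/
def perm2 (i : Fin (n + 1)) : Equiv.Perm (Red n) := ⟨act2 i, act2 i, act2_act2 i, act2_act2 i⟩

/-- the permutations of the normal forms of the first factor -/
def gen1 : Gen n → Equiv.Perm NF
  | Sum.inl (g, i) => perm1 g i
  | Sum.inr _ => 1

/-- the permutations of the vertices of the tree -/
def gen2 : Gen n → Equiv.Perm (Red n)
  | Sum.inl _ => 1
  | Sum.inr i => perm2 i

theorem perm1_mul_self (g i : Bool) : perm1 g i * perm1 g i = 1 := by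
  ext1 x
  exact act1_act1 g i x

theorem perm1_comm (g i i' : Bool) : perm1 g i * perm1 g i' = perm1 g i' * perm1 g i := by
  cases i <;> cases i'
  · rfl
  · ext1 x
    exact act1_comm g x
  · ext1 x
    exact (act1_comm g x).symm
  · rfl

theorem perm2_mul_self (i : Fin (n + 1)) : perm2 i * perm2 i = 1 := by
  ext1 x
  exact act2_act2 i x

theorem lift1 : (mat n).IsLiftable gen1 := by
  rintro (⟨g, i⟩ | i) (⟨g', i'⟩ | j)
  · change (perm1 g i * perm1 g' i') ^ (if g = g' then (if i = i' then 1 else 2) else 0) = 1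
    split_ifs with h1 h2
    · subst h1; subst h2
      rw [pow_one, perm1_mul_self]
    · subst h1
      rw [pow_two, mul_assoc, ← mul_assoc (perm1 g i'), perm1_comm g i' i, mul_assoc, perm1_mul_self, mul_one,
        perm1_mul_self]
    · rw [pow_zero]
  · change (perm1 g i * 1) ^ 2 = 1
    rw [mul_one, pow_two, perm1_mul_self]
  · change (1 * perm1 g' i') ^ 2 = 1
    rw [one_mul, pow_two, perm1_mul_self]
  · change ((1 : Equiv.Perm NF) * 1) ^ _ = 1
    rw [mul_one, one_pow]

theorem lift2 : (mat n).IsLiftable (gen2 (n := n)) := by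
  rintro (⟨g, i⟩ | i) (⟨g', i'⟩ | j)
  · change ((1 : Equiv.Perm (Red n)) * 1) ^ _ = 1
    rw [mul_one, one_pow]
  · change (1 * perm2 j) ^ 2 = 1
    rw [one_mul, pow_two, perm2_mul_self]
  · change (perm2 i * 1) ^ 2 = 1
    rw [mul_one, pow_two, perm2_mul_self]
  · change (perm2 i * perm2 j) ^ (if i = j then 1 else 0) = 1
    split_ifs with h
    · subst h
      rw [pow_one, perm2_mul_self]
    · rw [pow_zero]

/-- the action of `W` on the normal forms of the first factor -/
def hom1 : WW n →* Equiv.Perm NF := (csW n).lift ⟨gen1, lift1⟩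

/-- the action of `W` on the vertices of the tree -/
def hom2 : WW n →* Equiv.Perm (Red n) := (csW n).lift ⟨gen2, lift2⟩

/-- the normal form of the first component of an element of `W` -/
def nf1 (x : WW n) : NF := hom1 x⁻¹ none

/-- the vertex of the tree of an element of `W`, i.e. its second component -/
def nf2 (x : WW n) : Red n := hom2 x⁻¹ ⟨[], List.isChain_nil⟩

theorem hom1_simple (b : Gen n) : hom1 ((csW n).simple b) = gen1 b :=
  (csW n).lift_apply_simple lift1 b

theorem hom2_simple (b : Gen n) : hom2 ((csW n).simple b) = gen2 b :=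
  (csW n).lift_apply_simple lift2 b

theorem nf1_one : nf1 (1 : WW n) = none := by simp [nf1]

theorem nf2_one : nf2 (1 : WW n) = ⟨[], List.isChain_nil⟩ := by simp [nf2]

theorem nf1_mul (x : WW n) (b : Gen n) : nf1 (x * (csW n).simple b) = gen1 b (nf1 x) := by
  rw [nf1, mul_inv_rev, map_mul, CoxeterSystem.inv_simple, hom1_simple]
  rfl

theorem nf2_mul (x : WW n) (b : Gen n) : nf2 (x * (csW n).simple b) = gen2 b (nf2 x) := by
  rw [nf2, mul_inv_rev, map_mul, CoxeterSystem.inv_simple, hom2_simple]
  rfl

theorem nf1_inl (x : WW n) (g i : Bool) : nf1 (x * (csW n).simple (Sum.inl (g, i))) = act1 g i (nf1 x) :=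
  nf1_mul x _

theorem nf1_inr (x : WW n) (i : Fin (n + 1)) : nf1 (x * (csW n).simple (Sum.inr i)) = nf1 x :=
  nf1_mul x _

theorem nf2_inl (x : WW n) (a : Bool × Bool) : nf2 (x * (csW n).simple (Sum.inl a)) = nf2 x :=
  nf2_mul x _

theorem nf2_inr (x : WW n) (i : Fin (n + 1)) : nf2 (x * (csW n).simple (Sum.inr i)) = act2 i (nf2 x) :=
  nf2_mul x _

/-- the simple reflections are different -/
theorem simple_inj : Function.Injective (csW n).simple := by
  intro a b h
  have h1 : gen1 a = gen1 b := by rw [← hom1_simple, ← hom1_simple, h]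
  have h2 : gen2 a = gen2 b := by rw [← hom2_simple, ← hom2_simple, h]
  have e1 := congrArg (fun p : Equiv.Perm NF => p none) h1
  have e2 := congrArg (fun p : Equiv.Perm (Red n) => p ⟨[], List.isChain_nil⟩) h2
  rcases a with ⟨g, i⟩ | i <;> rcases b with ⟨g', i'⟩ | j
  · simp only [gen1, perm1, Equiv.coe_fn_mk, act1] at e1
    cases g <;> cases g' <;> cases i <;> cases i' <;> simp_all [V3.sing]
  · simp [gen1, perm1, act1] at e1
  · simp [gen1, perm1, act1] at e1
  · simp only [gen2, perm2, Equiv.coe_fn_mk, act2] at e2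
    have := congrArg Subtype.val e2
    simp at this
    rw [this]

end Pool.Agent.Q71.SP
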