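import Pool.Agent.Q71.SP.Ex

/-!
# Project SP: the two random fields of the example
-/

set_option autoImplicit false

open scoped ENNReal NNReal
open MeasureTheory Filter

namespace Pool.Agent.Q71.SP

variable {n : ℕ}

theorem exists_edge (e : Edge (csW n)) : ∃ (x : WW n) (b : Gen n), e = edge (csW n) x b := by
  obtain ⟨x, i, h⟩ := e.2
  exact ⟨x, i, Subtype.ext h⟩

/-- the rate field with rate `ρ x b` at the edge `{x, x s_b}` (for `ρ` with `ρ (x s_b) b = ρ x b`) -/
noncomputable def mkF (ρ : WW n → Gen n → ℝ≥0) (e : Edge (csW n)) : ℝ≥0 :=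
  ρ (exists_edge e).choose (exists_edge e).choose_spec.choose

theorem mkF_edge (ρ : WW n → Gen n → ℝ≥0) (h : ∀ x b, ρ (x * (csW n).simple b) b = ρ x b) (x : WW n) (b : Gen n) :
    mkF ρ (edge (csW n) x b) = ρ x b := by
  have h1 := (exists_edge (edge (csW n) x b)).choose_spec.choose_spec
  rw [mkF]
  generalize (exists_edge (edge (csW n) x b)).choose_spec.choose = b' at h1 ⊢
  generalize (exists_edge (edge (csW n) x b)).choose = y at h1 ⊢
  have h2 : s(x, x * (csW n).simple b) = s(y, y * (csW n).simple b') := congrArg Subtype.val h1
  rw [Sym2.eq_iff] at h2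
  rcases h2 with ⟨h2, h3⟩ | ⟨h2, h3⟩
  · subst h2
    rw [simple_inj (mul_left_cancel h3)]
  · have hx : x * (csW n).simple b' = x * (csW n).simple b := by
      rw [h3, h2, mul_assoc, CoxeterSystem.simple_mul_simple_self, mul_one]
    have hb := simple_inj (mul_left_cancel hx)
    rw [hb, ← h3]
    exact h x b

/-- labels of the first field: `inl j` for a vertex matched along `j`, `inr m` for an unmatched vertex -/
abbrev St1 (n : ℕ) : Type := Fin (n + 1) ⊕ Fin n

/-- labels of the second field: `none` for a centre, `some j` for a leaf whose centre is the neighbour along `j` -/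
abbrev St2 (n : ℕ) : Type := Option (Fin (n + 1))

/-- the label of the child along `t` in the first field; `u` is random -/
def step1 (t : Fin (n + 1)) (u : Fin n) : St1 n → St1 n
  | Sum.inl j => if j = t then Sum.inl t else Sum.inr u
  | Sum.inr _ => Sum.inl (t.succAbove u)

/-- the label of the child along `t` in the second field; `u` is random -/
def step2 (t : Fin (n + 1)) (u : Fin n) : St2 n → St2 n
  | none => some t
  | some j => if j = t then none else some (t.succAbove u)

/-- the open edges at a vertex of the first field -/
def op1 : St1 n → Fin (n + 1) → Bool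
  | Sum.inl j, i => decide (j = i)
  | Sum.inr _, _ => false

/-- the open edges at a vertex of the second field -/
def op2 : St2 n → Fin (n + 1) → Bool
  | none, _ => true
  | some j, i => decide (j = i)

/-- the labels of the vertices, from the label `σ` of the root and the random variables `U v` -/
def lab {S : Type} (step : Fin (n + 1) → Fin n → S → S) (σ : S) (U : List (Fin (n + 1)) → Fin n) :
    List (Fin (n + 1)) → S
  | [] => σ
  | i :: v => step i (U (i :: v)) (lab step σ U v)

/-- the type of the vertex `v` -/
def site (ε : Bool) (v : List (Fin (n + 1))) : Bool := xor ε (decide (v.length % 2 = 1))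

/-- the rate of the edge `{x, x s_b}` -/
def rho {S : Type} (step : Fin (n + 1) → Fin n → S → S) (op : S → Fin (n + 1) → Bool)
    (ω : S × (List (Fin (n + 1)) → Fin n) × Bool) (x : WW n) : Gen n → ℝ≥0
  | Sum.inl (g, _) => if site ω.2.2 (nf2 x).1 = g then 1 else 0
  | Sum.inr i => if op (lab step ω.1 ω.2.1 (nf2 x).1) i then 1 else 0

/-- the rate field -/
noncomputable def fld {S : Type} (step : Fin (n + 1) → Fin n → S → S) (op : S → Fin (n + 1) → Bool)
    (ω : S × (List (Fin (n + 1)) → Fin n) × Bool) : Edge (csW n) → ℝ≥0 := mkF (rho step op ω)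

/-- the uniform distribution on a finite set -/
noncomputable def unif (S : Type) [Fintype S] [MeasurableSpace S] : Measure S :=
  (Fintype.card S : ℝ≥0∞)⁻¹ • Measure.count

/-- the law of the family `U` of independent uniform random variables -/
noncomputable def nu (n : ℕ) : Measure (List (Fin (n + 1)) → Fin n) := Measure.infinitePi (fun _ => unif (Fin n))

/-- the law of `(root label, U, ε)` for a root label with law `P₀` -/
noncomputable def law {S : Type} [MeasurableSpace S] (n : ℕ) (P₀ : Measure S) :
    Measure (S × (List (Fin (n + 1)) → Fin n) × Bool) := P₀.prod ((nu n).prod (unif Bool))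

instance : MeasurableSpace (St1 n) := ⊤
instance : MeasurableSpace (St2 n) := ⊤
instance : DiscreteMeasurableSpace (St1 n) := ⟨fun _ => trivial⟩
instance : DiscreteMeasurableSpace (St2 n) := ⟨fun _ => trivial⟩

/-- the weights of the joint law of the two root labels -/
noncomputable def w0 (n : ℕ) : St1 n → St2 n → ℝ≥0
  | Sum.inl _, none => 1 / ((n + 1) * (n + 2))
  | Sum.inl j, some k => if k = j then (n ^ 2 + n + 1) / ((n + 1) * (n + 2) * (2 * n + 1)) else 0
  | Sum.inr _, none => 0
  | Sum.inr _, some _ => 1 / ((n + 1) * (2 * n + 1))

/-- the joint law of the two root labels -/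
noncomputable def root (n : ℕ) : Measure (St1 n × St2 n) :=
  ∑ a : St1 n, ∑ b : St2 n, (w0 n a b : ℝ≥0∞) • Measure.dirac (a, b)

/-- the probability space of the example -/
abbrev Om (n : ℕ) : Type := (St1 n × St2 n) × (List (Fin (n + 1)) → Fin n) × Bool

/-- its probability measure -/
noncomputable def PP (n : ℕ) : Measure (Om n) := law n (root n)

/-- the first field -/
noncomputable def R1 (n : ℕ) (ω : Om n) : Edge (csW n) → ℝ≥0 := fld step1 op1 (ω.1.1, ω.2)

/-- the second field -/
noncomputable def R2 (n : ℕ) (ω : Om n) : Edge (csW n) → ℝ≥0 := fld step2 op2 (ω.1.2, ω.2)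

/-- left multiplication by `inr t` on the vertices of the tree -/
def lam (t : Fin (n + 1)) (v : List (Fin (n + 1))) : List (Fin (n + 1)) :=
  if v.getLast? = some t then v.dropLast else v ++ [t]

/-- the permutation of the indices of `U` which belongs to left multiplication by `inr t` -/
def beta (t : Fin (n + 1)) (v : List (Fin (n + 1))) : List (Fin (n + 1)) :=
  if v.getLast? = some t then (if v.dropLast = [] ∨ v.dropLast.getLast? = some t then v else v.dropLast)
  else (if v = [] then [] else v ++ [t])

/-- the new `U` after left multiplication by `inr t` -/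
def newU {S : Type} (θ : Fin (n + 1) → S × Fin n → S × Fin n) (t : Fin (n + 1)) (σ : S)
    (U : List (Fin (n + 1)) → Fin n) : List (Fin (n + 1)) → Fin n :=
  fun w => if w = [t] then (θ t (σ, U [t])).2 else U (beta t w)

/-- the indicator function of the centres: all the edges `inr i` at the identity have rate one -/
noncomputable def hcen (r : Edge (csW n) → ℝ≥0) : ℝ :=
  open Classical in if ∀ i : Fin (n + 1), r (edge (csW n) 1 (Sum.inr i)) = 1 then 1 else 0

end Pool.Agent.Q71.SP
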