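import Pool.Agent.Q71.SP.Fld

/-!
# Project SP: statements of the lemma jobs, part 1 (the counterexample)

The doc comment of every `S_...` is its complete proof.  Definitions in `Defs.lean`, `Ex.lean`, `Fld.lean` (read them
first; `Ex.lean` has the lemmas `nf1_inl`, `nf1_inr`, `nf2_inl`, `nf2_inr`, `nf1_one`, `nf2_one`, `simple_inj`, and
`Fld.lean` has `mkF_edge`, `exists_edge`).

The theorem: random rate fields `R1 ≤ R2` on the Coxeter group `W = ((Z/2)^2 * (Z/2)^2) × (Z/2 * ... * Z/2)`, the law of
each of them invariant under left multiplication, such that the speed of the walk in `R1` is larger than in `R2`.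
The second factor is the tree of degree `n + 1`.  A vertex of the tree has one of two types (by parity); at a vertex
of type `g` the walk can use the two generators of type `g` of the first factor.  In `R2` the open edges of the tree
are stars (a centre and its `n + 1` neighbours), which partition the tree; in `R1` they are a (not perfect) matching.
-/

set_option autoImplicit false

open scoped ENNReal NNReal
open MeasureTheory Filter

namespace Pool.Agent.Q71.SP

/-! ## General part -/

/-- the indicator function of `y` -/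
noncomputable def del {W : Type} (y : W) : W → ℝ := open Classical in fun z => if z = y then 1 else 0

/-- the weights of the Poisson distribution with parameter `s` -/
noncomputable def pois (s : ℝ) (k : ℕ) : ℝ := Real.exp (-s) * s ^ k / k.factorial

/-- transition probabilities of the chain `K` at a Poisson number of steps -/
noncomputable def PE {B W : Type} [Group W] {M : CoxeterMatrix B} (cs : CoxeterSystem M W) [Fintype B]
    (r : Edge cs → ℝ≥0) (c : ℝ) (t : ℝ) (x y : W) : ℝ≥0∞ :=
  ∑' k : ℕ, ENNReal.ofReal (pois (c * t) k) * ENNReal.ofReal (((K cs r c)^[k] (del y)) x)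

open Classical in
/-- **BWD** (backward equation).  Proof.  Let `a k x = (K^[k] (del y)) x`, it is in `[0, 1]` (`K` is monotone and
`K 1 = 1`, as `tot x ≤ c`), and `P t x = ∑' k, pois (c t) k * a k x = exp (-c t) G_x(c t)`, with
`G_x(s) = ∑' k, a k x s^k / k!`, `G_x'(s) = ∑' k, a (k+1) x s^k / k!` (a power series with bounded coefficients), and
`a (k+1) x = K (a k) x = a k x + (∑ i, r_i (a k (x s_i) - a k x)) / c`, so `d/dt P t x = ∑ i, r_i (P t (x s_i) - P t x)
= ∑ i, r_i P t (x s_i) - q P t x` with `q = tot x`.  Hence the derivative of `u ↦ exp (-q u) P (t-u) x` is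
`- exp (-q u) ∑ i, r_i P (t-u) (x s_i)`; integrate over `[0, t]`: `exp (-q t) P 0 x - P t x = - ∑ i, ∫ ...`, and
`P 0 x = a 0 x = del y x`.  (All functions are continuous and nonnegative, so the integrals are also `lintegral`s, and
`PE = ENNReal.ofReal P`.) -/
def S_BWD : Prop := ∀ (B W : Type) [Fintype B] [Group W] (M : CoxeterMatrix B) (cs : CoxeterSystem M W)
  (r : Edge cs → ℝ≥0) (c : ℝ), 0 < c → (∀ x, (tot cs r x : ℝ) ≤ c) → ∀ (x y : W) (t : ℝ), 0 ≤ t →
  PE cs r c t x y = (if x = y then ENNReal.ofReal (Real.exp (-(tot cs r x * t))) else 0) +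
    ∑ i, ∫⁻ u in Set.Ioc 0 t, ENNReal.ofReal (r (edge cs x i) * Real.exp (-(tot cs r x * u))) *
      PE cs r c (t - u) (x * cs.simple i) y

/-- **MASS** (no explosion for bounded rates).  Proof.  First `t ↦ pn r k t x y` is measurable (induction; parameter
integrals, `Measurable.lintegral_prod_right'` for the function `(t, u) ↦ indicator of 0 < u ≤ t times ...`); write
`m k t x = ∑' y, pn r k t x y` (`t ≥ 0`).  Exchange sum and integral (`lintegral_tsum`):
`m (k+1) t x = exp (-q t) + ∑ i, ∫_{0 < u ≤ t} r_i exp (-q u) m k (t-u) (x s_i) du`, `q = tot x = ∑ i, r_i ≤ c`.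
Claim by induction on `k`: `m k t x ≥ 1 - (1 - exp (-c t))^(k+1)`.  `k = 0`: `m 0 t x = exp (-q t) ≥ exp (-c t)`.
Step: `m (k+1) t x ≥ exp (-q t) + ∫ q exp (-q u) (1 - (1 - exp (-c (t-u)))^(k+1)) du ≥
exp (-q t) + (1 - exp (-q t)) (1 - (1 - exp (-c t))^(k+1)) = 1 - (1 - exp (-q t)) (1 - exp (-c t))^(k+1)
≥ 1 - (1 - exp (-c t))^(k+2)`. -/
def S_MASS : Prop := ∀ (B W : Type) [Fintype B] [Group W] (M : CoxeterMatrix B) (cs : CoxeterSystem M W)
  (r : Edge cs → ℝ≥0) (c : ℝ), 0 < c → (∀ x, (tot cs r x : ℝ) ≤ c) → ∀ (k : ℕ) (x : W) (t : ℝ), 0 ≤ t →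
  1 ≤ (∑' y, pn cs r k t x y) + ENNReal.ofReal ((1 - Real.exp (-(c * t))) ^ (k + 1))

/-- **UNI** (bounded rates: Poisson number of steps of the discrete-time chain).  Uses BWD, MASS.  Proof.  By BWD and
induction on `k`, `pn r k t x y ≤ PE t x y` for `t ≥ 0` (for `k = 0` drop the integrals), so `pt t x y ≤ PE t x y`.
`∑' y, PE t x y = 1`: exchange the sums; `∑' y, ofReal (K^[k] (del y) x) = 1` (see below with `f = 1`), and the Poisson
weights have sum one (`c t ≥ 0`).  By MASS `∑' y, pt t x y ≥ 1` (the powers tend to zero).  So `pt t x y = PE t x y` for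
all `y` (otherwise the sums, which are finite, would be different).  For `f ≥ 0`:
`∑' y, ofReal (K^[k] (del y) x) * ofReal (f y) = ofReal (K^[k] f x)`, by induction on `k` for all `x`: with
`p_i = r_i / c`, `p_* = 1 - ∑ p_i ≥ 0` one has `K f x = ∑ i, p_i f (x s_i) + p_* f x` with nonnegative coefficients, so
`ofReal` of it is the corresponding combination of `ofReal (f (x s_i))`, `ofReal (f x)` (for `f ≥ 0`, and
`K^[k] f ≥ 0`), and `tsum` commutes with finite combinations. (`K^[k+1] = K ∘ K^[k]`.) -/
def S_UNI : Prop := ∀ (B W : Type) [Fintype B] [Group W] (M : CoxeterMatrix B) (cs : CoxeterSystem M W)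
  (r : Edge cs → ℝ≥0) (c : ℝ), 0 < c → (∀ x, (tot cs r x : ℝ) ≤ c) → ∀ (x : W) (t : ℝ), 0 ≤ t →
  ∀ f : W → ℝ, (∀ y, 0 ≤ f y) → ∑' y, pt cs r t x y * ENNReal.ofReal (f y) =
    ∑' k : ℕ, ENNReal.ofReal (pois (c * t) k) * ENNReal.ofReal (((K cs r c)^[k] f) x)

/-- **STA** (the environment seen from the chain is stationary).  Proof.  Let `h : (Edge → ℝ≥0) → ℝ` be measurable and
bounded, `h' r = h r + (∑ i, r (edge 1 i) (h (look r s_i) - h r)) / c`.  As `look (look r x) y = look r (x y)` and
`look r x (edge 1 i) = r (edge x i)`, `K r c (fun x => h (look r x)) = fun x => h' (look r x)`; `h'` is measurable, and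
the values `h' r` for `r` with all `tot r x ≤ c` are again bounded by `C`.  (Use `h' ∘` a truncation or carry the
hypothesis `|h r| ≤ C` only for `r` with `∀ x, tot r x ≤ c` through the induction on `k`: `look r x` has the same
property, `tot (look r x) y = tot r (x y)`.)  So it is enough that `∫ h' (R ω) = ∫ h (R ω)`, and induction on `k`
(`K^[k+1] f = K^[k] (K f)`).  Now `r (edge 1 i) = (look r s_i) (edge 1 i)`, because `s_i` exchanges the end points of
`edge 1 i`, so `∫ (R ω) (edge 1 i) h (look (R ω) s_i) = ∫ φ (look (R ω) s_i)` with `φ r = r (edge 1 i) h r`, and this is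
`∫ φ (R ω)` by invariance (`InvField.inv s_i`, `integral_map`). -/
def S_STA : Prop := ∀ (B W : Type) [Fintype B] [Group W] (M : CoxeterMatrix B) (cs : CoxeterSystem M W)
  (Ω : Type) [MeasurableSpace Ω] (P : Measure Ω) [IsProbabilityMeasure P] (R : Ω → Edge cs → ℝ≥0) (c : ℝ),
  0 < c → InvField cs P R → (∀ ω x, (tot cs (R ω) x : ℝ) ≤ c) →
  ∀ h : (Edge cs → ℝ≥0) → ℝ, Measurable h → ∀ C : ℝ, (∀ r, (∀ x, (tot cs r x : ℝ) ≤ c) → |h r| ≤ C) →
  ∀ k : ℕ, ∫ ω, ((K cs (R ω) c)^[k] (fun x => h (look cs (R ω) x))) 1 ∂P = ∫ ω, h (R ω) ∂P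

/-- **SUBA** (subadditivity).  Uses STA.  Proof.  For fixed `r` (with `tot r x ≤ c`) `K = K r c` is monotone and linear,
`K 1 = 1`.  `K^[k] len z ≤ len z + k` and `|K^[k] len 1| ≤ k`.  For `x : W` let `d_x y = len (x⁻¹ y)`; then
`len y ≤ len x + d_x y`, so `K^[k] len x ≤ len x + K^[k] d_x x = len x + h_k (look r x)`, with
`h_k r = (K r c)^[k] len 1` (equivariance: `(K r c)^[k] d_x (x z) = (K (look r x) c)^[k] len z`, induction on `k`).
Apply `K^[m]` and evaluate at `1`: `K^[m+k] len 1 ≤ K^[m] len 1 + K^[m] (fun x => h_k (look r x)) 1`.  Take `r = R ω` and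
integrate; the last term gives `∫ h_k (R ω) = yk k` by STA (`h_k` is measurable: induction, it is a polynomial in
finitely many coordinates; `|h_k r| ≤ k` for `r` with `tot r x ≤ c`).  All integrands are bounded and measurable. -/
def S_SUBA : Prop := ∀ (B W : Type) [Fintype B] [Group W] (M : CoxeterMatrix B) (cs : CoxeterSystem M W)
  (Ω : Type) [MeasurableSpace Ω] (P : Measure Ω) [IsProbabilityMeasure P] (R : Ω → Edge cs → ℝ≥0) (c : ℝ),
  0 < c → InvField cs P R → (∀ ω x, (tot cs (R ω) x : ℝ) ≤ c) →
  ∀ m k : ℕ, yk cs P R c (m + k) ≤ yk cs P R c m + yk cs P R c k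

/-- **SPEED**.  Uses UNI.  Proof.  Non-explosion: UNI with `x = 1`, `f = 1` (`K 1 = 1`, the Poisson weights have sum
one).  By UNI with `f = len` and `lintegral_tsum` (`ω ↦ (K (R ω) c)^[k] len 1` is measurable, nonnegative and at most
`k`), for `t ≥ 0`, `expDist t = ∑' k, ofReal (pois (c t) k) * ofReal (yk k)`, the expectation of `yk N` for a Poisson
variable `N` with mean `c t`.  For `ε > 0` there is `C` with `|yk k - L k| ≤ ε k + C` for all `k`, so
`|expDist t - c L t| ≤ ε c t + C` (mean of the Poisson distribution), hence `expDist t / t → c L` (`L ≥ 0`). -/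
def S_SPEED : Prop := ∀ (B W : Type) [Fintype B] [Group W] (M : CoxeterMatrix B) (cs : CoxeterSystem M W)
  (Ω : Type) [MeasurableSpace Ω] (P : Measure Ω) [IsProbabilityMeasure P] (R : Ω → Edge cs → ℝ≥0) (c : ℝ),
  0 < c → Measurable R → (∀ ω x, (tot cs (R ω) x : ℝ) ≤ c) →
  ∀ L : ℝ, Tendsto (fun k : ℕ => yk cs P R c k / k) atTop (nhds L) → IsSpeed cs P R (ENNReal.ofReal (c * L))

/-! ## The example -/

/-- **LAM** (left multiplication on the tree).  Proof.  `nf2 (s * x) = hom2 (x⁻¹ * s) [] = hom2 x⁻¹ (hom2 s [])`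
(`inv_simple`, `mul_inv_rev`).  For `s = simple (inl a)` this is `hom2 x⁻¹ [] = nf2 x`.  For `s = simple (inr t)` prove
`hom2 x⁻¹ [t] = lam t (nf2 x)` by induction on `x` (`CoxeterSystem.simple_induction_right` or
`cs.wordProd_surjective`): for `x = 1` clear.  From `x` to `x * simple (inl a)`: nothing changes.  From `x` to
`x * simple (inr i)`: apply `act2 i` on both sides, and use `(act2 i (lam t v)) = lam t (act2 i v)` for lists `v`
without equal neighbours (`lam t v` is again one).  This is clear if `v` has at least two elements, because `lam t`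
changes only the end of the list and `act2 i` only the beginning (for `v = [a, t]`, `v = [a, b]`, and longer ones), and
easy to check for `v = []`, `v = [a]`. -/
def S_LAM : Prop := ∀ (n : ℕ) (x : WW n), (∀ t : Fin (n + 1), (nf2 ((csW n).simple (Sum.inr t) * x)).1 =
  lam t (nf2 x).1) ∧ ∀ a, nf2 ((csW n).simple (Sum.inl a) * x) = nf2 x

/-- **LAB** (relabelling).  Proof.  Write `(σ', u') = θ t (σ, U [t])`, `U' = newU θ t σ U`, so `U' [t] = u'`,
`step t (U [t]) σ = σ'` and `step t u' σ' = σ` (as `θ t (σ', u') = (σ, U [t])`).  Induction on `v`.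
`v = []`: `lam t [] = [t]`, `lab (σ, U) [t] = σ'`.  `v = [i]`, `i = t`: `lam = []`, both sides are `σ`.  `v = [i]`,
`i ≠ t`: `lam = [i, t]`, `lab (σ, U) [i, t] = step i (U [i, t]) σ'` and `U' [i] = U (beta t [i]) = U [i, t]`.
`v = i :: w` with `w ≠ []`: `lam t v = i :: lam t w`, and `beta t v = lam t v`: if `w` does not end with `t` this is
`v ++ [t]`; if it does then `v.dropLast` is not empty and does not end with `t` (no equal neighbours).  So
`U' v = U (i :: lam t w)`, and the claim follows from the one for `w`. -/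
def S_LAB : Prop := ∀ (n : ℕ) (S : Type) (step : Fin (n + 1) → Fin n → S → S)
  (θ : Fin (n + 1) → S × Fin n → S × Fin n), (∀ t p, θ t (θ t p) = p) → (∀ t σ u, (θ t (σ, u)).1 = step t u σ) →
  ∀ (t : Fin (n + 1)) (σ : S) (U : List (Fin (n + 1)) → Fin n) (v : List (Fin (n + 1))), v.IsChain (· ≠ ·) →
  lab step σ U (lam t v) = lab step (θ t (σ, U [t])).1 (newU θ t σ U) v

/-- **THM** (the change of the root preserves the measure).  Proof.  `beta t` is an involution of the set of all lists
(check the cases), and fixes `[t]`.  Let `Φ : (S × Fin n) × (List → Fin n) → S × (List → Fin n)`,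
`Φ ((σ, u), V) = (σ, update V [t] u)`.  It maps `(unif S × unif (Fin n)) × nu` to `unif S × nu` (resampling the
coordinate `[t]` of a product measure; e.g. with `Measure.eq_infinitePi`).  The map `T` of the statement satisfies
`T (Φ ((σ, u), V)) = Φ (θ t (σ, u), V ∘ beta t)`.  `θ t` is a bijection of `S × Fin n`, so it preserves
`unif S × unif (Fin n)` (the uniform measure of a finite set), and `V ↦ V ∘ beta t` preserves `nu`
(`infinitePi_map_piCongrLeft`).  So `T` preserves the image measure `unif S × nu`. -/
def S_THM : Prop := ∀ (n : ℕ) [NeZero n] (S : Type) [Fintype S] [Nonempty S] [MeasurableSpace S]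
  [MeasurableSingletonClass S] (θ : Fin (n + 1) → S × Fin n → S × Fin n), (∀ t p, θ t (θ t p) = p) →
  ∀ t : Fin (n + 1), MeasurePreserving
    (fun p : S × (List (Fin (n + 1)) → Fin n) => ((θ t (p.1, p.2 [t])).1, newU θ t p.1 p.2))
    ((unif S).prod (nu n)) ((unif S).prod (nu n))

/-- **INV** (invariance).  Uses LAM, LAB, THM.  Proof.  First `rho step op ω (x s_b) b = rho step op ω x b`
(so `mkF_edge` applies, `fld step op ω (edge x b) = rho step op ω x b`): for `b = inl a`: `nf2` is the same; for
`b = inr i`: `nf2` changes from `v` to `i :: v` or back, and `op (step i u σ) i = op σ i`.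
`fld` is measurable: for every edge only the coordinates `σ`, `ε` and finitely many `U w` are used, each in a countable
discrete space (`lab` depends on finitely many of them; by induction on the list `ω ↦ lab step ω.1 ω.2.1 v` is
measurable).  Invariance under `g` and `g'` implies that under `g g'` (`lmul (g g') e = lmul g (lmul g' e)`:
the law of `look (R) (g g') = look (look R g) g'`), so generators `s_b` are enough (`simple_induction`).
`b = inl a`: `rho ω (s x) c = rho ω x c` as `nf2 (s x) = nf2 x` (LAM), so the field does not change at all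
(`lmul s (edge x c) = edge (s x) c`).  `b = inr t`: `rho (σ, U, ε) (s x) c = rho (σ', U', !ε) x c`, where `(σ', U')` is
as in LAB: the parity of the length of `lam t v` is different from that of `v`, and LAB for the labels.  The map
`(σ, U, ε) ↦ (σ', U', !ε)` preserves `law n (unif S)` by THM (and associativity of the product; `!` preserves
`unif Bool`). -/
def S_INV : Prop := ∀ (n : ℕ) [NeZero n] (S : Type) [Fintype S] [Nonempty S] [MeasurableSpace S]
  [MeasurableSingletonClass S] (step : Fin (n + 1) → Fin n → S → S) (op : S → Fin (n + 1) → Bool)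
  (θ : Fin (n + 1) → S × Fin n → S × Fin n), (∀ t p, θ t (θ t p) = p) → (∀ t σ u, (θ t (σ, u)).1 = step t u σ) →
  (∀ i u σ, op (step i u σ) i = op σ i) → InvField (csW n) (law n (unif S)) (fld step op)

/-- **ROOT** (the root labels).  Proof.  Finite sums.  The mass of `root` at `(a, b)` is `w0 n a b`; the sums of `w0 n a b`
over `b` are `1 / (2 n + 1)` (for `a = inl j`: `1 / ((n+1)(n+2)) + (n²+n+1) / ((n+1)(n+2)(2n+1))`; for `a = inr m`: `n + 1`
times `1 / ((n+1)(2n+1))`), and `St1 n` has `2 n + 1` elements.  The sums over `a` are `1 / (n+2)` (for `b = none`: `n + 1`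
times `1 / ((n+1)(n+2))`; for `b = some k`: `(n²+n+1) / ((n+1)(n+2)(2n+1)) + n / ((n+1)(2n+1))`), and `St2 n` has `n + 2`
elements.  `w0 n a b = 0` for the pairs not in the set of the last statement. -/
def S_ROOT : Prop := ∀ (n : ℕ) [NeZero n], (root n).map Prod.fst = unif (St1 n) ∧
  (root n).map Prod.snd = unif (St2 n) ∧
  ∀ᵐ p ∂(root n), (∃ j, p.1 = Sum.inl j ∧ (p.2 = none ∨ p.2 = some j)) ∨ ∃ m k, p.1 = Sum.inr m ∧ p.2 = some k

/-- **DOM** (domination).  Uses ROOT.  Proof.  Let `A a b` be the property of the pair `(a, b)` in ROOT.  If `A a b` then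
`A (step1 t u a) (step2 t u b)` (check: `(inl j, none)`: `t = j` gives `(inl j, some j)`, otherwise `(inr u, some t)`;
`(inl j, some j)`: `t = j` gives `(inl j, none)`, otherwise `(inr u, some (t.succAbove u))`; `(inr m, some k)`: `t = k` gives
`(inl (t.succAbove u), none)`, otherwise `(inl (t.succAbove u), some (t.succAbove u))`), so if it holds for the labels of
the root then for the labels of all vertices (same `U`), and `A a b` implies `op1 a i → op2 b i`.  The rates of the edges
of type `inl` are the same in both fields.  (`mkF_edge` needs `rho ... (x s_b) b = rho ... x b`, see INV; here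
`op1 (step1 i u σ) i = op1 σ i`, `op2 (step2 i u σ) i = op2 σ i`; `Fin.succAbove_ne`.) -/
def S_DOM : Prop := ∀ (n : ℕ) [NeZero n], ∀ᵐ ω ∂(PP n), ∀ e, R1 n ω e ≤ R2 n ω e

/-- **INV12**.  Uses INV, ROOT.  Proof.  INV for `step1`, `op1` with `θ t (inl j, u) = (inl t, u)` if `j = t`,
`(inr u, k)` if `j = t.succAbove k`; `θ t (inr m, u) = (inl (t.succAbove u), m)`.  INV for `step2`, `op2` with
`θ t (none, u) = (some t, u)`, `θ t (some t, u) = (none, u)`, `θ t (some (t.succAbove k), u) = (some (t.succAbove u), k)`.
(`Fin.exists_succAbove_eq`, `finSuccAboveEquiv`.)  The law of `(ω.1.1, ω.2)` under `PP n` is `law n (unif (St1 n))` by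
ROOT (`Measure.map_prod_map`), similarly for `(ω.1.2, ω.2)`, and `InvField` for a composition follows from
`Measure.map_map`.  Last two statements: `fld (edge x b) = rho x b ∈ {0, 1}`, and at most one (the two) of the four
generators `inl (g, i)` with `g` the type of the vertex are used. -/
def S_INV12 : Prop := ∀ (n : ℕ) [NeZero n], IsProbabilityMeasure (PP n) ∧ InvField (csW n) (PP n) (R1 n) ∧
  InvField (csW n) (PP n) (R2 n) ∧ (∀ ω x, (tot (csW n) (R1 n ω) x : ℝ) ≤ n + 3) ∧
  (∀ ω x, (tot (csW n) (R2 n ω) x : ℝ) ≤ n + 3)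

/-- **LOW** (the walk in a matched pair).  Proof.  (a) `phi g x ≤ wsum x`, `wsum (act1 g i x) ≤ wsum x + 5/2` (cases:
the block of the value `one`, `two` has weight `5/2`, `both` has weight `2`), so `wsum (nf1 x) ≤ 5/2 * length x`
(a word of length `length x`).
(b) for all `g`, `x : NF`: `1/2 ≤ (∑ i : Bool, (phi g (act1 g i x) - phi g x)) + (phi (!g) x - phi g x)`.  Cases:
`x = none`: `2`.  Last block of type `g`, value `one` or `two`: one generator makes it `both` (change `0`), the other
one removes it (change `-1`: the new last block has type `!g`, so it counts with its weight), and the last difference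
is `5/2 - 1`: sum `1/2`.  Type `g`, value `both`: `0 + 0 + (2 - 1) = 1`.  Type `!g`: both generators add a block
(change `+1` each), the last difference is `1 - 5/2` or `1 - 2`: sum `1/2` or `1`.
(c) Let `r = fld step1 op1 (inl j, U, ε)`, `D` the set of the `x` with `(nf2 x).1 = []` or `[j]`, and
`f x = phi (site ε (nf2 x).1) (nf1 x)`.  The labels of `[]` and `[j]` are `inl j`, so for `x ∈ D` the edges at `x` of
rate one are those of the two generators `inl (g, i)`, `g = site ε (nf2 x).1`, and `inr j` (the others have rate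
zero), and they lead to points of `D`.  Crossing the edge `inr j` changes `g` to `!g`.  By (b)
`K f x ≥ f x + 1 / (2 (n+3))` for `x ∈ D`, and by induction `K^[k] f x ≥ f x + k / (2 (n+3))` for `x ∈ D`
(`K^[k+1] f x = K (K^[k] f) x` is a convex combination of values of `K^[k] f` in `D`, `2 + 1 ≤ n + 3`).  At `x = 1`:
`f 1 = 0`.  By (a) `len ≥ 2/5 f`, so `K^[k] len 1 ≥ 2/5 K^[k] f 1 ≥ k / (5 (n+3))` (`K` is monotone). -/
def S_LOW : Prop := ∀ (n : ℕ) [NeZero n] (j : Fin (n + 1)) (U : List (Fin (n + 1)) → Fin n) (ε : Bool) (k : ℕ),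
  (k : ℝ) / (5 * (n + 3)) ≤ ((K (csW n) (fld step1 op1 (Sum.inl j, U, ε)) (n + 3))^[k] (len (csW n))) 1

/-- **LEN** (length and blocks).  Proof.  (a) `cnt g (act1 g' i x) ≤ cnt g x + (if g' = g then 1 else 0)`: if `g' ≠ g`,
adding, changing or removing a block of type `g'` does not change the number of the blocks of type `g`.
(b) `nbl x ≤ 2 * cnt g x + 1`: the types of the blocks alternate (induction on the list, for `cntL`:
`l.length ≤ 2 * cntL g g' l + 1`, and `l.length ≤ 2 * cntL g g l`).
(c) For a normal form `y : NF` let `w y` be a word (product of generators `inl`) for it: for `none` it is `1`, for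
`some (g, v, l)` it is `w (rest) * (the product of the one or two generators of type g in v)`, so `w y` has length at
most `2 * nbl y`, and for a list `v` let `w' v` be the product of the `simple (inr i)`, `i ∈ v`, in reverse order, of
length at most `v.length`.  Claim: `x = w (nf1 x) * w' (nf2 x)` for all `x : W`, by induction (from `x` to `x * s_b`):
`w' (act2 i v) = w' v * simple (inr i)`, `w (act1 g i y) = w y * simple (inl (g, i))` (the two generators of type `g`
are commuting involutions), and `inl` generators commute with `inr` generators (from `simple_mul_simple_pow` with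
`M = 2`).  So `length x ≤ 2 * nbl (nf1 x) + (nf2 x).length`. -/
def S_LEN : Prop := (∀ (g g' i : Bool) (x : NF), cnt g (act1 g' i x) ≤ cnt g x + (if g' = g then 1 else 0)) ∧
  (∀ (g : Bool) (x : NF), nbl x ≤ 2 * cnt g x + 1) ∧
  ∀ (n : ℕ) (x : WW n), (csW n).length x ≤ 2 * nbl (nf1 x) + (nf2 x).1.length

/-- **UPP** (the walk in a star).  Uses LEN.  Proof.  Let `r = fld step2 op2 (σ, U, ε)`.  `D` = the set of the `x` with
`(nf2 x).1 = []` or `[i]` for some `i`, if `σ = none`, and `(nf2 x).1 = []`, `[k]` or `[i, k]` for some `i ≠ k`, if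
`σ = some k`: this is the star of the root.  Its centre is `[]` in the first and `[k]` in the second case; the label of
the centre is `none` and all its edges are open; the label of the other vertices is `some` and only their edge to the
centre is open.  `1 ∈ D`, and edges of positive rate lead from `D` to `D`.  Let `g` be the type of the centre; the other
vertices of the star have type `!g`.  `f x = cnt g (nf1 x)`.  For `x ∈ D` which is the centre, `K f x ≤ f x + 2/(n+3)`
(two generators of type `g`, each of them increases `f` by at most one), for the other `x ∈ D` `K f x = f x`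
(or `≤`).  Let `e x = hcen (look r x)`; `e x = 1` iff all edges `inr i` at `x` are open, so `e x = 1` for the centre
(and `0 ≤ e`).  So `K f ≤ f + 2/(n+3) e` on `D`, and by induction `K^[k] f x ≤ f x + 2/(n+3) ∑_{l<k} K^[l] e x` for
`x ∈ D`.  `len x ≤ 2 (2 f x + 1) + 2 = 4 f x + 4` for `x ∈ D` by LEN.  Hence
`K^[k] len 1 ≤ 4 K^[k] f 1 + 4 ≤ 4 + 8/(n+3) ∑_{l<k} K^[l] e 1` (monotonicity of `K^[k]` on functions restricted to
`D`: the values of `K h` on `D` are convex combinations of values of `h` on `D`). -/
def S_UPP : Prop := ∀ (n : ℕ) [NeZero n] (σ : St2 n) (U : List (Fin (n + 1)) → Fin n) (ε : Bool) (k : ℕ),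
  ((K (csW n) (fld step2 op2 (σ, U, ε)) (n + 3))^[k] (len (csW n))) 1 ≤ 4 + 8 / (n + 3) *
    ∑ l ∈ Finset.range k, ((K (csW n) (fld step2 op2 (σ, U, ε)) (n + 3))^[l]
      (fun x => hcen (look (csW n) (fld step2 op2 (σ, U, ε)) x))) 1

end Pool.Agent.Q71.SP
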